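import Pool.Agent.H34.GA.Targets1
import Pool.Agent.H34.GM.MEL
import Pool.Agent.H34.GM.THC
import Pool.Agent.H34.GM.CONv

/-!
# Row GLA of the board ga: the L-function is entire (MP_52e316_nt)
-/

set_option autoImplicit false

namespace Pool.Agent.H20.GA

open MeasureTheory Filter Topology Pool.Agent.H34.GM Pool.Agent.H34.GU Pool.Agent.H34.GA

section Wt

variable {m : ℕ} {ψ : ℝ → ℂ} {lam : ℕ → ℂ}

theorem gla_supp (h : Wc m ψ lam) : ∃ c : ℝ, 1 < c ∧ ∀ r : ℝ, 0 < r →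
    (r < c⁻¹ → ψ r = 0) ∧ (c < r → ψ r = 0) := by
  obtain ⟨c, hc, hs⟩ := h.supp
  refine ⟨c, hc, fun r hr => ⟨fun h1 => ?_, fun h1 => ?_⟩⟩
  · by_contra h2
    exact absurd (hs r hr h2).1 (not_le.2 h1)
  · by_contra h2
    exact absurd (hs r hr h2).2 (not_le.2 h1)

/-- the sum is continuous and vanishes for small arguments -/
theorem gla_th (hm1 : 1 ≤ m) (h : Wc m ψ lam) : ContinuousOn (thA m ψ lam) (Set.Ioi 0) ∧
    ∃ r0 : ℝ, 0 < r0 ∧ ∀ r : ℝ, 0 < r → r < r0 → thA m ψ lam r = 0 := by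
  obtain ⟨c, hc1, hs⟩ := gla_supp h
  have hc : 0 < c := zero_lt_one.trans hc1
  have hz : ∀ r : ℝ, 0 < r → ∀ n : ℕ, 1 ≤ n → r * (n : ℝ) ^ (-(1 / (m : ℝ))) < c⁻¹ →
      ψ (r * (n : ℝ) ^ (-(1 / (m : ℝ)))) = 0 := by
    intro r hr n hn hlt
    have hn0 : (0 : ℝ) < n := by exact_mod_cast hn
    exact (hs _ (mul_pos hr (Real.rpow_pos_of_pos hn0 _))).1 hlt
  constructor
  · intro r1 hr1
    have hr1' : (0 : ℝ) < r1 := hr1
    obtain ⟨K, hK⟩ := exists_nat_gt ((c * (r1 + 1)) ^ m)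
    have hb : 0 < r1 + 1 := by linarith
    have hfin : ∀ r ∈ Set.Ioo (0 : ℝ) (r1 + 1), thA m ψ lam r =
        ∑ n ∈ Finset.range K, if 1 ≤ n then
          (n : ℂ) ^ (((m : ℂ) - 1) / 2) * lam n * ψ (r * (n : ℝ) ^ (-(1 / (m : ℝ))))
          else 0 := by
      intro r hr
      refine tsum_eq_sum fun n hn => ?_
      by_cases hc1 : 1 ≤ n
      · rw [if_pos hc1]
        have hKn : K ≤ n := by
          by_contra h
          exact hn (Finset.mem_range.2 (not_le.1 h))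
        have h2 : (c * (r1 + 1)) ^ m < (n : ℝ) :=
          hK.trans_le (by exact_mod_cast hKn)
        rw [hz r hr.1 n hc1 (thc_small hm1 hc hb hr.2 h2), mul_zero]
      · rw [if_neg hc1]
    have hco : ContinuousOn (thA m ψ lam) (Set.Ioo (0 : ℝ) (r1 + 1)) := by
      refine ContinuousOn.congr ?_ hfin
      refine continuousOn_finsetSum _ fun n _ => ?_
      by_cases hc1 : 1 ≤ n
      · simp only [if_pos hc1]
        refine continuousOn_const.mul ?_
        refine h.cont.comp (continuousOn_id.mul continuousOn_const) ?_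
        intro r hr
        have hn0 : (0 : ℝ) < n := by exact_mod_cast hc1
        exact mul_pos hr.1 (Real.rpow_pos_of_pos hn0 _)
      · simp only [if_neg hc1]
        exact continuousOn_const
    exact (hco.continuousAt (Ioo_mem_nhds hr1' (by linarith))).continuousWithinAt
  · refine ⟨c⁻¹, inv_pos.2 hc, fun r hr hrc => ?_⟩
    have : ∀ n : ℕ, (if 1 ≤ n then
        (n : ℂ) ^ (((m : ℂ) - 1) / 2) * lam n * ψ (r * (n : ℝ) ^ (-(1 / (m : ℝ))))
        else 0) = 0 := by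
      intro n
      by_cases hc1 : 1 ≤ n
      · rw [if_pos hc1]
        have hn0 : (1 : ℝ) ≤ n := by exact_mod_cast hc1
        have hle : (n : ℝ) ^ (-(1 / (m : ℝ))) ≤ 1 :=
          Real.rpow_le_one_of_one_le_of_nonpos hn0 (by
            have : (0 : ℝ) ≤ 1 / (m : ℝ) := by positivity
            linarith)
        have : r * (n : ℝ) ^ (-(1 / (m : ℝ))) < c⁻¹ :=
          lt_of_le_of_lt (mul_le_of_le_one_right hr.le hle) hrc
        rw [hz r hr n hc1 this, mul_zero]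
      · rw [if_neg hc1]
    unfold thA
    simp only [this, tsum_zero]

/-- the Mellin transform of the weight -/
theorem gla_mel (hm1 : 1 ≤ m) (h : Wc m ψ lam) : Differentiable ℂ (MelA m ψ) ∧
    ∀ s : ℂ, IntegrableOn (fun r : ℝ => ψ r *
      ((r : ℝ) : ℂ) ^ (-((m : ℂ) * (s + ((m : ℂ) - 1) / 2)) - 1)) (Set.Ioi 0) := by
  obtain ⟨c, hc1, hs⟩ := gla_supp h
  have hc : 0 < c := zero_lt_one.trans hc1
  refine pf_CON m ψ hm1 h.cont ⟨c⁻¹, inv_pos.2 hc, fun r hr hrc => (hs r hr).1 hrc⟩ ?_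
  intro N
  have hcpt : IsCompact (Set.Icc 1 c) := isCompact_Icc
  have hco : ContinuousOn ψ (Set.Icc 1 c) :=
    h.cont.mono fun r hr => lt_of_lt_of_le zero_lt_one hr.1
  obtain ⟨B, hB⟩ := hcpt.exists_bound_of_continuousOn hco
  refine ⟨|B| * c ^ N, fun r hr => ?_⟩
  have hr0 : 0 < r := lt_of_lt_of_le zero_lt_one hr
  by_cases hrc : r ≤ c
  · have h1 := (hB r ⟨hr, hrc⟩).trans (le_abs_self B)
    have h2 : 1 ≤ c ^ N * r ^ (-(N : ℝ)) := by
      rw [Real.rpow_neg hr0.le, Real.rpow_natCast, ← div_eq_mul_inv, ← div_pow]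
      exact one_le_pow₀ ((one_le_div hr0).2 hrc)
    calc ‖ψ r‖ ≤ |B| * 1 := by rwa [mul_one]
      _ ≤ |B| * (c ^ N * r ^ (-(N : ℝ))) := mul_le_mul_of_nonneg_left h2 (abs_nonneg _)
      _ = _ := by ring
  · rw [(hs r hr0).2 (not_le.1 hrc), norm_zero]
    positivity

theorem gla_con (hm1 : 1 ≤ m) (h : Wc m ψ lam) : Differentiable ℂ (LmA m ψ lam) := by
  obtain ⟨h1, h2⟩ := gla_th hm1 h
  exact (pf_CON m (thA m ψ lam) hm1 h1 h2 h.dec).1

open Classical in
/-- the region of absolute convergence -/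
theorem gla_abs (hm : 1 ≤ m) (h : Wc m ψ lam) (C : ℝ)
    (hC : ∀ n : ℕ, 1 ≤ n → ‖(n : ℂ) ^ (((m : ℂ) - 1) / 2) * lam n‖ ≤ C * (n : ℝ) ^ m)
    (s : ℂ) (hs : (m : ℝ) + 2 < s.re) :
    (Summable fun n : ℕ => if 1 ≤ n ∧ n.Coprime 1 then lam n * (n : ℂ) ^ (-s) else 0) ∧
    LmA m ψ lam s =
      (∑' n : ℕ, if 1 ≤ n ∧ n.Coprime 1 then lam n * (n : ℂ) ^ (-s) else 0) * MelA m ψ s := by
  have hI := (gla_mel hm h).2 s
  set w : ℂ := s + ((m : ℂ) - 1) / 2 with hw
  have hm1 : (1 : ℝ) ≤ m := by exact_mod_cast hm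
  have hwre : w.re = s.re + ((m : ℝ) - 1) / 2 := by
    rw [hw, Complex.add_re]
    congr 1
    have : ((m : ℂ) - 1) / 2 = ((((m : ℝ) - 1) / 2 : ℝ) : ℂ) := by push_cast; ring
    rw [this, Complex.ofReal_re]
  -- the coefficients
  set c : ℕ → ℂ := fun n =>
    if 1 ≤ n ∧ n.Coprime 1 then (n : ℂ) ^ (((m : ℂ) - 1) / 2) * lam n else 0
    with hc
  have hcn : ∀ n, ‖c n * (n : ℂ) ^ (-w)‖ ≤ |C| * (n : ℝ) ^ ((m : ℝ) - w.re) := by
    intro n
    simp only [hc]
    split_ifs with h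
    · have hn0 : (0 : ℝ) < n := by exact_mod_cast h.1
      rw [norm_mul, Complex.norm_natCast_cpow_of_pos (by omega), Complex.neg_re,
        show (m : ℝ) - w.re = (m : ℝ) + (-w.re) by ring,
        Real.rpow_add hn0, Real.rpow_natCast, ← mul_assoc]
      refine mul_le_mul_of_nonneg_right ?_ (Real.rpow_nonneg hn0.le _)
      refine (hC n h.1).trans ?_
      gcongr
      exact le_abs_self C
    · rw [zero_mul, norm_zero]
      positivity
  have hsum : Summable fun n : ℕ => |C| * (n : ℝ) ^ ((m : ℝ) - w.re) := by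
    refine Summable.mul_left _ ?_
    rw [Real.summable_nat_rpow, hwre]
    linarith
  have hterm : ∀ n : ℕ, c n * (n : ℂ) ^ (-w) =
      if 1 ≤ n ∧ n.Coprime 1 then lam n * (n : ℂ) ^ (-s) else 0 := by
    intro n
    simp only [hc]
    split_ifs with h
    · have hnC : (n : ℂ) ≠ 0 := by exact_mod_cast (by omega : n ≠ 0)
      have h1 : (n : ℂ) ^ (-s) = (n : ℂ) ^ (((m : ℂ) - 1) / 2) * (n : ℂ) ^ (-w) := by
        rw [← Complex.cpow_add _ _ hnC]
        congr 1
        rw [hw]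
        ring
      rw [h1]
      ring
    · rw [zero_mul]
  have hS : Summable fun n : ℕ => c n * (n : ℂ) ^ (-w) :=
    Summable.of_norm_bounded hsum hcn
  refine ⟨by simpa only [hterm] using hS, ?_⟩
  -- the integral
  set e : ℂ := -((m : ℂ) * w) - 1 with he
  set K : ℝ := ∫ r in Set.Ioi (0 : ℝ), ‖ψ r * (r : ℂ) ^ e‖ with hK
  set F : ℕ → ℝ → ℂ := fun n r => c n * ψ (r * (n : ℝ) ^ (-(1 / (m : ℝ)))) * (r : ℂ) ^ e
    with hF
  have hE : ∫ r in Set.Ioi (0 : ℝ), ψ r * (r : ℂ) ^ e = MelA m ψ s := rfl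
  have hF1 : ∀ n, IntegrableOn (F n) (Set.Ioi 0) ∧
      ∫ r in Set.Ioi (0 : ℝ), F n r = c n * (n : ℂ) ^ (-w) * MelA m ψ s ∧
      ∫ r in Set.Ioi (0 : ℝ), ‖F n r‖ = ‖c n * (n : ℂ) ^ (-w)‖ * K := by
    intro n
    by_cases hn : 1 ≤ n
    · obtain ⟨h1, h2, h3⟩ := MEL.main hm ψ w hI n hn (c n)
      exact ⟨h1, by rw [← hE]; exact h2, h3⟩
    · have h0 : c n = 0 := by
        simp only [hc]
        rw [if_neg (fun h => hn h.1)]
      have h1 : F n = fun _ => 0 := by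
        funext r
        simp only [hF, h0, zero_mul]
      rw [h1, h0]
      simp
  have hlm : LmA m ψ lam s = ∫ r in Set.Ioi (0 : ℝ), ∑' n, F n r := by
    unfold LmA
    refine integral_congr_ae (Filter.Eventually.of_forall fun r => ?_)
    simp only [thA, hF, hc, ite_mul, zero_mul]
    rw [← tsum_mul_right]
    refine tsum_congr fun n => ?_
    by_cases hn : 1 ≤ n
    · simp [he, hw, hn]
    · simp [hn]
  have hsn : Summable fun n => ∫ r in Set.Ioi (0 : ℝ), ‖F n r‖ := by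
    simp only [fun n => (hF1 n).2.2]
    exact (hS.norm).mul_right K
  have hfin := hasSum_integral_of_summable_integral_norm (fun n => (hF1 n).1) hsn
  rw [hlm, ← hfin.tsum_eq]
  simp only [fun n => (hF1 n).2.1]
  rw [tsum_mul_right]
  simp only [hterm]

end Wt

theorem pf_GLA : T_GLA := by
  intro m lam hm hC hex
  obtain ⟨C0, hC0⟩ := hC
  -- cross identity
  have hcross : ∀ ψ ψ' : ℝ → ℂ, Wc m ψ lam → Wc m ψ' lam → ∀ s : ℂ,
      LmA m ψ lam s * MelA m ψ' s = LmA m ψ' lam s * MelA m ψ s := by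
    intro ψ ψ' h h' s
    have hf : Differentiable ℂ (fun s => LmA m ψ lam s * MelA m ψ' s) :=
      (gla_con hm h).mul (gla_mel hm h').1
    have hg : Differentiable ℂ (fun s => LmA m ψ' lam s * MelA m ψ s) :=
      (gla_con hm h').mul (gla_mel hm h).1
    have hev : (fun s => LmA m ψ lam s * MelA m ψ' s) =ᶠ[𝓝 (((m : ℝ) + 3 : ℝ) : ℂ)]
        (fun s => LmA m ψ' lam s * MelA m ψ s) := by
      have hopen : IsOpen {s : ℂ | (m : ℝ) + 2 < s.re} :=
        isOpen_lt continuous_const Complex.continuous_re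
      have hmem : (((m : ℝ) + 3 : ℝ) : ℂ) ∈ {s : ℂ | (m : ℝ) + 2 < s.re} := by
        simp only [Set.mem_ofPred_eq, Complex.ofReal_re]
        linarith
      filter_upwards [hopen.mem_nhds hmem] with s hs
      have hs' : (m : ℝ) + 2 < s.re := hs
      rw [(gla_abs hm h C0 hC0 s hs').2, (gla_abs hm h' C0 hC0 s hs').2]
      ring
    have hEq := AnalyticOnNhd.eq_of_eventuallyEq (𝕜 := ℂ)
      (fun z _ => hf.analyticAt z) (fun z _ => hg.analyticAt z) hev
    exact congrFun hEq s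
  choose ps hps hne using hex
  set L : ℂ → ℂ := fun s => LmA m (ps s) lam s / MelA m (ps s) s with hL
  have hK : ∀ ψ : ℝ → ℂ, Wc m ψ lam → ∀ s : ℂ, LmA m ψ lam s = L s * MelA m ψ s := by
    intro ψ h s
    have h1 := hcross ψ (ps s) h (hps s) s
    simp only [hL]
    rw [div_mul_eq_mul_div, eq_div_iff (hne s)]
    exact h1
  refine ⟨L, ⟨?_, ?_⟩, hK⟩
  · intro s0
    have hco : Continuous (MelA m (ps s0)) := (gla_mel hm (hps s0)).1.continuous
    have hev : L =ᶠ[𝓝 s0] (fun s => LmA m (ps s0) lam s / MelA m (ps s0) s) := by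
      filter_upwards [hco.continuousAt.eventually_ne (hne s0)] with s hs
      rw [eq_div_iff hs]
      exact (hK _ (hps s0) s).symm
    refine DifferentiableAt.congr_of_eventuallyEq ?_ hev
    exact ((gla_con hm (hps s0)) s0).div ((gla_mel hm (hps s0)).1 s0) (hne s0)
  · intro s hs
    obtain ⟨h1, h2⟩ := gla_abs hm (hps s) C0 hC0 s hs
    have h3 : L s = ∑' n : ℕ, if 1 ≤ n ∧ n.Coprime 1 then lam n * (n : ℂ) ^ (-s) else 0 := by
      simp only [hL]
      rw [h2, mul_div_assoc, div_self (hne s), mul_one]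
    rw [h3]
    exact h1.hasSum

end Pool.Agent.H20.GA
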